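import Pool.Agent.Lib.TG.Basic
import Mathlib

/-!
# TANK G, interface C → E5: stabilisers of centres and orbits

`R ⊆ F`, `N / F` a finite Galois extension, `V` a valuation ring of `N` containing `R`.
`stab V R` is the stabiliser of the centre of `V` on the integral closure of `R` in `N`.
* `stab_anti`: it gets smaller when `R` gets larger;
* `map_stab`: it restricts onto the stabiliser in a smaller Galois extension;
* `orbit_le`: the orbits on the roots are bounded by local degrees of overfields.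
-/

set_option autoImplicit false

namespace Pool.Agent.TG

open Pool.Agent.LU2 (locV)

universe u

/-! ## Conjugacy of primes -/

section Conj

variable {L N : Type*} [Field L] [Field N] [Algebra L N] [FiniteDimensional L N] [IsGalois L N]

/-- Two primes of a Galois-stable subring with the same elements of the base field: the first is
contained in a conjugate of the second. -/
theorem exists_conj_le (B : Subring N) (hB : ∀ ρ : N ≃ₐ[L] N, ∀ b ∈ B, ρ b ∈ B)
    (P Q : Ideal B) [Q.IsPrime]
    (h : ∀ b : B, (∃ l : L, algebraMap L N l = b) → b ∈ P → b ∈ Q) :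
    ∃ ρ : N ≃ₐ[L] N, ∀ b : B, b ∈ P → (⟨ρ b, hB ρ b b.2⟩ : B) ∈ Q := by
  classical
  let r : (N ≃ₐ[L] N) → (B →+* B) := fun ρ =>
    ((ρ : N →+* N).comp B.subtype).codRestrict B (fun b => hB ρ b b.2)
  have hr : ∀ ρ (b : B), r ρ b = ⟨ρ b, hB ρ b b.2⟩ := fun ρ b => rfl
  by_contra hcon
  push Not at hcon
  have h1 : ¬ ((P : Set B) ⊆ ⋃ ρ ∈ ((Finset.univ : Finset (N ≃ₐ[L] N)) : Set (N ≃ₐ[L] N)),
      ((Q.comap (r ρ) : Ideal B) : Set B)) := by
    intro hsub
    obtain ⟨ρ, -, hρ⟩ := (Ideal.subset_union_prime (s := (Finset.univ : Finset (N ≃ₐ[L] N)))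
      (f := fun ρ => Q.comap (r ρ)) 1 1 (fun ρ _ _ _ => inferInstance)).1 hsub
    obtain ⟨b, hb, hb'⟩ := hcon ρ
    exact hb' (hρ hb)
  rw [Set.not_subset] at h1
  obtain ⟨a, haP, ha⟩ := h1
  have ha' : ∀ ρ, r ρ a ∉ Q := by
    intro ρ hρ
    exact ha (Set.mem_iUnion₂.2 ⟨ρ, by simp, hρ⟩)
  have hprod : (∏ ρ : N ≃ₐ[L] N, r ρ a) ∈ P := by
    rw [← Finset.mul_prod_erase Finset.univ (fun ρ => r ρ a) (Finset.mem_univ (1 : N ≃ₐ[L] N))]
    exact P.mul_mem_right _ (by
      have : r 1 a = a := Subtype.ext (by rw [hr]; rfl)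
      rw [this]; exact haP)
  have hfix : ∃ l : L, algebraMap L N l = ((∏ ρ : N ≃ₐ[L] N, r ρ a : B) : N) := by
    have h2 : ((∏ ρ : N ≃ₐ[L] N, r ρ a : B) : N) = ∏ ρ : N ≃ₐ[L] N, ρ (a : N) := by
      rw [SubmonoidClass.coe_finset_prod]
      rfl
    rw [h2]
    have h3 : (∏ ρ : N ≃ₐ[L] N, ρ (a : N)) ∈ (⊥ : IntermediateField L N) := by
      rw [IsGalois.mem_bot_iff_fixed]
      intro σ
      rw [map_prod]
      exact Fintype.prod_equiv (Equiv.mulLeft σ) _ _ (fun ρ => rfl)
    exact IntermediateField.mem_bot.1 h3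
  have h4 := h _ hfix hprod
  obtain ⟨ρ, -, hρ⟩ := (Ideal.IsPrime.prod_mem_iff (s := Finset.univ) (x := fun ρ => r ρ a)).1 h4
  exact ha' ρ hρ

/-- Primes of a Galois-stable subring with the same elements of the base field are conjugate. -/
theorem exists_conj_eq (B : Subring N) (hB : ∀ ρ : N ≃ₐ[L] N, ∀ b ∈ B, ρ b ∈ B)
    (P Q : Ideal B) [P.IsPrime] [Q.IsPrime]
    (h : ∀ b : B, (∃ l : L, algebraMap L N l = b) → (b ∈ P ↔ b ∈ Q)) :
    ∃ ρ : N ≃ₐ[L] N, ∀ b : B, b ∈ P ↔ (⟨ρ b, hB ρ b b.2⟩ : B) ∈ Q := by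
  obtain ⟨ρ, hρ⟩ := exists_conj_le B hB P Q fun b hb hP => (h b hb).1 hP
  obtain ⟨ρ', hρ'⟩ := exists_conj_le B hB Q P fun b hb hQ => (h b hb).2 hQ
  refine ⟨ρ, fun b => ⟨hρ b, fun hb => ?_⟩⟩
  -- `τ = ρ' ρ` maps `P` into `P`
  have hτ : ∀ (m : ℕ) (b : B), b ∈ P → (⟨((ρ' * ρ) ^ m) b, hB _ b b.2⟩ : B) ∈ P := by
    intro m
    induction m with
    | zero => intro b hb; exact hb
    | succ m ih =>
      intro b hb
      have h1 := hρ' _ (hρ _ (ih b hb))
      have h2 : (⟨ρ' (ρ (((ρ' * ρ) ^ m) b)), hB _ _ (hB _ _ (hB _ _ b.2))⟩ : B) =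
          (⟨((ρ' * ρ) ^ (m + 1)) b, hB _ b b.2⟩ : B) := by
        apply Subtype.ext
        change ρ' (ρ (((ρ' * ρ) ^ m) b)) = ((ρ' * ρ) ^ (m + 1)) b
        rw [pow_succ']
        rfl
      rw [← h2]
      exact h1
  have hfin := orderOf_pos (ρ' * ρ)
  have h1 := hρ' _ hb
  have h2 := hτ (orderOf (ρ' * ρ) - 1) _ h1
  have h3 : (⟨((ρ' * ρ) ^ (orderOf (ρ' * ρ) - 1)) (ρ' (ρ b)), hB _ _ (hB _ _ (hB _ _ b.2))⟩ : B)
      = b := by
    apply Subtype.ext
    change ((ρ' * ρ) ^ (orderOf (ρ' * ρ) - 1)) ((ρ' * ρ) b) = b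
    rw [← AlgEquiv.mul_apply, ← pow_succ, Nat.sub_add_cancel hfin, pow_orderOf_eq_one]
    rfl
  rw [← h3]
  exact h2

end Conj

/-! ## The stabiliser -/

section Stab

variable {k F N : Type u} [Field k] [Field F] [Field N] [Algebra k F] [Algebra k N] [Algebra F N]
  [IsScalarTower k F N]

variable (N) in
/-- A subalgebra of `F`, viewed in `N`. -/
def up (R : Subalgebra k F) : Subalgebra k N := R.map (IsScalarTower.toAlgHom k F N)

theorem mem_up {R : Subalgebra k F} {x : N} : x ∈ up N R ↔ ∃ a ∈ R, algebraMap F N a = x :=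
  Iff.rfl

theorem up_mono {R R' : Subalgebra k F} (h : R ≤ R') : up N R ≤ up N R' := Subalgebra.map_mono h

/-- Galois conjugation preserves integrality over `R ⊆ F`. -/
theorem ncl_up_stable {R : Subalgebra k F} (σ : N ≃ₐ[F] N) {a : N} (ha : a ∈ ncl (up N R)) :
    σ a ∈ ncl (up N R) := by
  obtain ⟨p, hp, hc, h0⟩ := exists_poly_of_mem_ncl ha
  refine mem_ncl_of_root (p.map (σ : N →+* N)) (hp.map _) (fun i => ?_) ?_
  · rw [Polynomial.coeff_map]
    obtain ⟨r, hr, h1⟩ := (mem_up (N := N) (R := R)).1 (hc i)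
    rw [← h1]
    change σ (algebraMap F N r) ∈ _
    rw [σ.commutes]
    exact le_ncl _ ((mem_up (N := N) (R := R)).2 ⟨r, hr, rfl⟩)
  · rw [Polynomial.eval_map]
    change Polynomial.eval₂ (σ : N →+* N) ((σ : N →+* N) a) p = 0
    rw [Polynomial.eval₂_hom, h0, map_zero]

/-- The stabiliser of the centre of `V` on the integral closure of `R ⊆ F` in `N`. -/
def stab (V : ValuationSubring N) (R : Subalgebra k F) : Subgroup (N ≃ₐ[F] N) where
  carrier := {σ | ∀ a ∈ ncl (up N R), (V.valuation (σ a) < 1 ↔ V.valuation a < 1)}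
  one_mem' := fun _ _ => Iff.rfl
  mul_mem' := fun {σ τ} hσ hτ a ha => (hσ _ (ncl_up_stable τ ha)).trans (hτ a ha)
  inv_mem' := fun {σ} hσ a ha => by
    have h1 := hσ _ (ncl_up_stable σ⁻¹ ha)
    have h2 : σ (σ⁻¹ a) = a := by
      rw [← AlgEquiv.mul_apply, mul_inv_cancel]; rfl
    rw [h2] at h1
    exact h1.symm

theorem mem_stab {V : ValuationSubring N} {R : Subalgebra k F} {σ : N ≃ₐ[F] N} :
    σ ∈ stab V R ↔ ∀ a ∈ ncl (up N R), (V.valuation (σ a) < 1 ↔ V.valuation a < 1) := Iff.rfl

/-- The stabiliser gets smaller when the ring gets larger. -/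
theorem stab_anti (V : ValuationSubring N) {R R' : Subalgebra k F} (h : R ≤ R') :
    stab V R' ≤ stab V R := fun _ hσ a ha => hσ a (ncl_mono (up_mono h) ha)

end Stab

/-! ## Restriction to a smaller Galois extension -/

section Restrict

variable {k F L N : Type u} [Field k] [Field F] [Field L] [Field N] [Algebra k F] [Algebra k L]
  [Algebra k N] [Algebra F L] [Algebra F N] [Algebra L N] [IsScalarTower k F L]
  [IsScalarTower k F N] [IsScalarTower F L N]

omit [Algebra k F] [Algebra k L] [Algebra k N] [Field F] [Algebra F L] [Algebra F N]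
  [IsScalarTower k F L] [IsScalarTower k F N] [IsScalarTower F L N] [Field k] in
theorem val_lt_one_iff' (V : ValuationSubring L) {x : L} (hx : x ≠ 0) :
    V.valuation x < 1 ↔ x⁻¹ ∉ V := by
  rw [← V.valuation_le_one_iff, not_le, map_inv₀]
  constructor
  · intro h
    exact (one_lt_inv₀ (zero_lt_iff.2 ((Valuation.ne_zero_iff _).2 hx))).2 h
  · intro h
    exact (one_lt_inv₀ (zero_lt_iff.2 ((Valuation.ne_zero_iff _).2 hx))).1 h

omit [Algebra k F] [Algebra k L] [Algebra k N] [Field F] [Algebra F L] [Algebra F N]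
  [IsScalarTower k F L] [IsScalarTower k F N] [IsScalarTower F L N] [Field k] in
theorem comap_lt_one (V : ValuationSubring N) (x : L) :
    (V.comap (algebraMap L N)).valuation x < 1 ↔ V.valuation (algebraMap L N x) < 1 := by
  by_cases hx : x = 0
  · subst hx; simp
  rw [val_lt_one_iff' _ hx, val_lt_one_iff' _ ((map_ne_zero _).2 hx), ← map_inv₀]
  exact Iff.rfl

/-- Integrality over `R ⊆ F` does not depend on the field. -/
theorem ncl_up_iff {R : Subalgebra k F} (a : L) :
    a ∈ ncl (up L R) ↔ algebraMap L N a ∈ ncl (up N R) := by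
  constructor
  · intro ha
    obtain ⟨p, hp, hc, h0⟩ := exists_poly_of_mem_ncl ha
    refine mem_ncl_of_root (p.map (algebraMap L N)) (hp.map _) (fun i => ?_) ?_
    · rw [Polynomial.coeff_map]
      obtain ⟨r, hr, h1⟩ := (mem_up (N := L) (R := R)).1 (hc i)
      rw [← h1, ← IsScalarTower.algebraMap_apply]
      exact le_ncl _ ((mem_up (N := N) (R := R)).2 ⟨r, hr, rfl⟩)
    · rw [Polynomial.eval_map, Polynomial.eval₂_hom, h0, map_zero]
  · intro ha
    obtain ⟨p, hp, hc, h0⟩ := exists_poly_of_mem_ncl ha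
    have h1 : p ∈ Polynomial.lifts (algebraMap L N) := by
      rw [Polynomial.lifts_iff_coeff_lifts]
      intro i
      obtain ⟨r, hr, h1⟩ := (mem_up (N := N) (R := R)).1 (hc i)
      exact ⟨algebraMap F L r, by rw [← IsScalarTower.algebraMap_apply]; exact h1⟩
    obtain ⟨q, hq, -, hqm⟩ := Polynomial.lifts_and_natDegree_eq_and_monic h1 hp
    refine mem_ncl_of_root q hqm (fun i => le_ncl _ ?_) ?_
    · obtain ⟨r, hr, h2⟩ := (mem_up (N := N) (R := R)).1 (hc i)
      refine (mem_up (N := L) (R := R)).2 ⟨r, hr, (algebraMap L N).injective ?_⟩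
      rw [← IsScalarTower.algebraMap_apply, h2, ← hq, Polynomial.coeff_map]
    · refine (algebraMap L N).injective ?_
      rw [map_zero, ← h0, ← hq, Polynomial.eval_map, Polynomial.eval₂_hom]

variable [FiniteDimensional F N] [IsGalois F N] [Normal F L]

/-- The stabiliser in `N` restricts onto the stabiliser in `L`. -/
theorem map_stab (V : ValuationSubring N) (R : Subalgebra k F) (hR : ∀ a ∈ up N R, a ∈ V) :
    (stab V R).map (AlgEquiv.restrictNormalHom L) = stab (V.comap (algebraMap L N)) R := by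
  apply le_antisymm
  · rintro _ ⟨σ, hσ, rfl⟩ a ha
    have h1 := hσ _ ((ncl_up_iff (N := N) a).1 ha)
    rw [comap_lt_one, comap_lt_one, ← h1]
    rw [← AlgEquiv.restrictNormal_commutes σ L a]
    rfl
  · intro τ hτ
    obtain ⟨σ₀, hσ₀⟩ := AlgEquiv.restrictNormalHom_surjective (F := F) (K₁ := L) N τ
    have hres : ∀ a : L, σ₀ (algebraMap L N a) = algebraMap L N (τ a) := by
      intro a
      rw [← hσ₀, ← AlgEquiv.restrictNormal_commutes σ₀ L a]
      rfl
    let B : Subring N := (ncl (up N R)).toSubring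
    have hBV : ∀ b ∈ B, b ∈ V := fun b hb => ncl_mem hR b hb
    haveI : IsGalois L N := IsGalois.tower_top_of_isGalois F L N
    haveI : FiniteDimensional L N := FiniteDimensional.right F L N
    have hB : ∀ ρ : N ≃ₐ[L] N, ∀ b ∈ B, ρ b ∈ B := fun ρ b hb =>
      ncl_up_stable (ρ.restrictScalars F) hb
    -- the two primes
    have key : ∀ (f : N ≃ₐ[F] N), ∃ P : Ideal B, P.IsPrime ∧
        ∀ b : B, b ∈ P ↔ V.valuation (f b) < 1 := by
      intro f
      have hfB : ∀ b : B, f (b : N) ∈ V := fun b => hBV _ (ncl_up_stable f b.2)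
      let P : Ideal B :=
        { carrier := {b | V.valuation (f b) < 1}
          add_mem' := fun {a b} ha hb => by
            change V.valuation (f ((a : N) + (b : N))) < 1
            rw [map_add]
            exact Valuation.map_add_lt _ ha hb
          zero_mem' := by
            change V.valuation (f (0 : N)) < 1
            rw [map_zero, map_zero]; exact zero_lt_one
          smul_mem' := fun c b hb => by
            change V.valuation (f ((c : N) * (b : N))) < 1
            rw [map_mul, map_mul]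
            exact lt_of_le_of_lt (mul_le_of_le_one_left' ((V.valuation_le_one_iff _).2 (hfB c))) hb }
      refine ⟨P, ⟨?_, ?_⟩, fun b => Iff.rfl⟩
      · rw [Ne, Ideal.eq_top_iff_one]
        intro h
        have h1 : V.valuation (f (1 : N)) < 1 := h
        rw [map_one, map_one] at h1
        exact lt_irrefl _ h1
      · intro a b hab
        by_contra hcon
        push Not at hcon
        have ha : V.valuation (f a) = 1 :=
          le_antisymm ((V.valuation_le_one_iff _).2 (hfB a)) (not_lt.1 hcon.1)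
        have hb : V.valuation (f b) = 1 :=
          le_antisymm ((V.valuation_le_one_iff _).2 (hfB b)) (not_lt.1 hcon.2)
        have h1 : V.valuation (f ((a : N) * (b : N))) < 1 := hab
        rw [map_mul, map_mul, ha, hb, one_mul] at h1
        exact lt_irrefl _ h1
    obtain ⟨P, hP, hPm⟩ := key 1
    obtain ⟨Q, hQ, hQm⟩ := key σ₀
    obtain ⟨ρ, hρ⟩ := exists_conj_eq B hB P Q (fun b hb => by
      obtain ⟨l, hl⟩ := hb
      rw [hPm, hQm]
      have hlB : l ∈ ncl (up L R) := (ncl_up_iff (N := N) l).2 (by rw [hl]; exact b.2)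
      have h1 := hτ l hlB
      rw [comap_lt_one, comap_lt_one] at h1
      rw [← hl, hres]
      exact h1.symm)
    refine ⟨σ₀ * (ρ.restrictScalars F), fun a ha => ?_, ?_⟩
    · have h1 := hρ ⟨a, ha⟩
      rw [hPm, hQm] at h1
      exact h1.symm
    · rw [map_mul, hσ₀]
      have h1 : AlgEquiv.restrictNormalHom L (ρ.restrictScalars F) = (1 : L ≃ₐ[F] L) := by
        ext a
        refine (algebraMap L N).injective ?_
        have h2 : algebraMap L N ((AlgEquiv.restrictNormalHom L (ρ.restrictScalars F)) a) =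
            (ρ.restrictScalars F) (algebraMap L N a) :=
          AlgEquiv.restrictNormal_commutes (ρ.restrictScalars F) L a
        rw [h2]
        change ρ (algebraMap L N a) = _
        rw [ρ.commutes]
        rfl
      rw [h1, mul_one]

end Restrict

/-! ## Extension of valuation rings -/

section Ext

/-- Every valuation ring extends to a field extension. -/
theorem exists_comap_eq {L N : Type*} [Field L] [Field N] [Algebra L N] (V : ValuationSubring L) :
    ∃ W : ValuationSubring N, W.comap (algebraMap L N) = V := by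
  let B : Subring N := V.toSubring.map (algebraMap L N)
  have hB : ∀ x : L, x ∈ V → algebraMap L N x ∈ B := fun x hx => ⟨x, hx, rfl⟩
  let I : Ideal B :=
    { carrier := {b | ∃ x ∈ V, V.valuation x < 1 ∧ algebraMap L N x = b}
      add_mem' := by
        rintro a b ⟨x, hx, hx1, hxa⟩ ⟨y, hy, hy1, hyb⟩
        exact ⟨x + y, V.add_mem _ _ hx hy, Valuation.map_add_lt _ hx1 hy1, by
          rw [map_add, hxa, hyb]; rfl⟩
      zero_mem' := ⟨0, V.zero_mem, by rw [map_zero]; exact zero_lt_one, by
        rw [map_zero]; rfl⟩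
      smul_mem' := by
        rintro ⟨_, c, hc, rfl⟩ b ⟨x, hx, hx1, hxb⟩
        refine ⟨c * x, V.mul_mem _ _ hc hx, ?_, ?_⟩
        · rw [map_mul]
          exact lt_of_le_of_lt (mul_le_of_le_one_left' ((V.valuation_le_one_iff _).2 hc)) hx1
        · rw [map_mul, hxb]; rfl }
  have hI : I ≠ ⊤ := by
    rw [Ne, Ideal.eq_top_iff_one]
    rintro ⟨x, -, hx1, hx⟩
    have h1 : x = 1 := (algebraMap L N).injective (by rw [hx, map_one]; rfl)
    rw [h1, map_one] at hx1
    exact lt_irrefl _ hx1
  obtain ⟨W, hBW, hIW⟩ := Ideal.image_subset_nonunits_valuationSubring I hI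
  refine ⟨W, le_antisymm (fun x hx => ?_) fun x hx => ?_⟩
  · by_contra hxV
    have hx0 : x ≠ 0 := by rintro rfl; exact hxV V.zero_mem
    have h1 : x⁻¹ ∈ V := (V.mem_or_inv_mem x).resolve_left hxV
    have h2 : V.valuation x⁻¹ < 1 := by
      rw [val_lt_one_iff' V (inv_ne_zero hx0), inv_inv]
      exact hxV
    have h3 : algebraMap L N x⁻¹ ∈ W.nonunits :=
      hIW ⟨⟨algebraMap L N x⁻¹, hB _ h1⟩, ⟨x⁻¹, h1, h2, rfl⟩, rfl⟩
    have h4 : W.valuation (algebraMap L N x⁻¹) < 1 := (ValuationSubring.mem_nonunits_iff W).1 h3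
    rw [val_lt_one_iff' W ((map_ne_zero _).2 (inv_ne_zero hx0)), ← map_inv₀, inv_inv] at h4
    exact h4 hx
  · exact hBW (hB x hx)

end Ext

/-! ## Local rings of models under field extension -/

section Up

variable {k F N : Type u} [Field k] [Field F] [Field N] [Algebra k F] [Algebra k N] [Algebra F N]
  [IsScalarTower k F N]

omit [Field k] [Algebra k F] [Algebra k N] [IsScalarTower k F N] in
theorem comap_eq_one (V : ValuationSubring N) (x : F) :
    (V.comap (algebraMap F N)).valuation x = 1 ↔ V.valuation (algebraMap F N x) = 1 := by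
  have h1 := comap_lt_one V x
  have h2 : (V.comap (algebraMap F N)).valuation x ≤ 1 ↔ V.valuation (algebraMap F N x) ≤ 1 := by
    rw [ValuationSubring.valuation_le_one_iff, ValuationSubring.valuation_le_one_iff]
    exact Iff.rfl
  rw [eq_iff_le_not_lt, eq_iff_le_not_lt, h1, h2]

theorem algebraMap_mem_up {R : Subalgebra k F} {a : F} : algebraMap F N a ∈ up N R ↔ a ∈ R := by
  constructor
  · rintro ⟨b, hb, h⟩
    have h1 : b = a := (algebraMap F N).injective h
    rwa [← h1]
  · exact fun h => ⟨a, h, rfl⟩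

theorem locV_up (V : ValuationSubring N) (S : Subalgebra k F) :
    locV V (up N S) = up N (locV (V.comap (algebraMap F N)) S) := by
  apply le_antisymm
  · rintro _ ⟨_, ⟨a, ha, rfl⟩, _, ⟨b, hb, rfl⟩, h1, rfl⟩
    refine ⟨a / b, ⟨a, ha, b, hb, (comap_eq_one V b).2 h1, rfl⟩, ?_⟩
    change algebraMap F N (a / b) = algebraMap F N a / algebraMap F N b
    rw [map_div₀]
  · rintro _ ⟨_, ⟨a, ha, b, hb, h1, rfl⟩, rfl⟩
    refine ⟨algebraMap F N a, ⟨a, ha, rfl⟩, algebraMap F N b, ⟨b, hb, rfl⟩,
      (comap_eq_one V b).1 h1, ?_⟩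
    change algebraMap F N (a / b) = _
    rw [map_div₀]

variable (N) in
/-- A model of `F`, viewed in `N`. -/
def upm (P : Submodule k F) : Submodule k N := P.map (IsScalarTower.toAlgHom k F N).toLinearMap

theorem algebraMap_mem_upm {P : Submodule k F} {a : F} : algebraMap F N a ∈ upm N P ↔ a ∈ P := by
  constructor
  · rintro ⟨b, hb, h⟩
    have h1 : b = a := (algebraMap F N).injective h
    rwa [← h1]
  · exact fun h => ⟨a, h, rfl⟩

theorem mem_upm {P : Submodule k F} {x : N} : x ∈ upm N P ↔ ∃ a ∈ P, algebraMap F N a = x :=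
  Iff.rfl

theorem IsModel.upm {P : Submodule k F} (hP : IsModel P) : IsModel (TG.upm N P) := by
  refine ⟨hP.fg.map _, fun h => hP.ne ?_⟩
  rw [eq_bot_iff]
  intro a ha
  have h1 : algebraMap F N a ∈ TG.upm N P := algebraMap_mem_upm.2 ha
  rw [h, Submodule.mem_bot] at h1
  exact (map_eq_zero _).1 h1

theorem isMin_upm (V : ValuationSubring N) {P : Submodule k F} {f : F} :
    IsMin V (upm N P) (algebraMap F N f) ↔ IsMin (V.comap (algebraMap F N)) P f := by
  constructor
  · intro h
    refine ⟨algebraMap_mem_upm.1 h.mem, fun h0 => h.ne (by rw [h0, map_zero]), fun g hg => ?_⟩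
    change algebraMap F N (g / f) ∈ V
    rw [map_div₀]
    exact h.div _ (algebraMap_mem_upm.2 hg)
  · intro h
    refine ⟨algebraMap_mem_upm.2 h.mem, (map_ne_zero _).2 h.ne, ?_⟩
    rintro _ ⟨g, hg, rfl⟩
    have h1 : algebraMap F N (g / f) ∈ V := h.div g hg
    rw [map_div₀] at h1
    exact h1

theorem ch_upm {P : Submodule k F} (f : F) :
    ch (upm N P) (algebraMap F N f) = up N (ch P f) := by
  rw [ch, ch, up, AlgHom.map_adjoin]
  congr 1
  ext x
  constructor
  · rintro ⟨_, ⟨g, hg, rfl⟩, rfl⟩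
    refine ⟨g / f, ⟨g, hg, rfl⟩, ?_⟩
    change algebraMap F N (g / f) = _
    rw [map_div₀]
    rfl
  · rintro ⟨_, ⟨g, hg, rfl⟩, rfl⟩
    refine ⟨algebraMap F N g, ⟨g, hg, rfl⟩, ?_⟩
    change _ = algebraMap F N (g / f)
    rw [map_div₀]

/-- The local ring of a model of `F` at a valuation ring of `N`. -/
theorem RV_upm (V : ValuationSubring N) (hV : Ov k V) {P : Submodule k F} (hP : IsModel P) :
    RV V (upm N P) = up N (RV (V.comap (algebraMap F N)) P) := by
  have hov : Ov k (V.comap (algebraMap F N)) := fun c => by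
    change algebraMap F N (algebraMap k F c) ∈ V
    rw [← IsScalarTower.algebraMap_apply]
    exact hV c
  obtain ⟨f, hf⟩ := exists_isMin hov hP
  rw [RV_eq ((isMin_upm V).2 hf), RV_eq hf, ch_upm, locV_up]

/-- The local ring of the normalisation of a model of `F` in `N`. -/
theorem NV_upm (V : ValuationSubring N) (hV : Ov k V) {P : Submodule k F} (hP : IsModel P) :
    NV V (upm N P) = locV V (ncl (up N (RV (V.comap (algebraMap F N)) P))) := by
  rw [NV, RV_upm V hV hP]

/-- The stabiliser of the centre is the stabiliser of the local ring. -/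
theorem mem_stab_iff_locV [FiniteDimensional F N] (V : ValuationSubring N) {R : Subalgebra k F}
    (hR : ∀ a ∈ up N R, a ∈ V) {σ : N ≃ₐ[F] N} :
    σ ∈ stab V R ↔ ∀ x ∈ locV V (ncl (up N R)), σ x ∈ locV V (ncl (up N R)) := by
  have hone : ∀ τ ∈ stab V R, ∀ b ∈ ncl (up N R), V.valuation b = 1 → V.valuation (τ b) = 1 := by
    intro τ hτ b hb h1
    refine le_antisymm ?_ (not_lt.1 fun h => ?_)
    · exact (V.valuation_le_one_iff _).2 (ncl_mem hR _ (ncl_up_stable τ hb))
    · exact absurd h1 ((hτ b hb).1 h).ne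
  constructor
  · rintro hσ _ ⟨a, ha, b, hb, h1, rfl⟩
    exact ⟨σ a, ncl_up_stable σ ha, σ b, ncl_up_stable σ hb, hone σ hσ b hb h1, by
      rw [map_div₀]⟩
  · intro h
    have hpow : ∀ (m : ℕ), ∀ x ∈ locV V (ncl (up N R)),
        (σ ^ m) x ∈ locV V (ncl (up N R)) := by
      intro m
      induction m with
      | zero => exact fun x hx => hx
      | succ m ih =>
        intro x hx
        rw [pow_succ, AlgEquiv.mul_apply]
        exact ih _ (h x hx)
    have hinv : ∀ x ∈ locV V (ncl (up N R)), σ⁻¹ x ∈ locV V (ncl (up N R)) := by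
      intro x hx
      have h1 := hpow (orderOf σ - 1) x hx
      have h2 : σ ^ (orderOf σ - 1) = σ⁻¹ := by
        rw [eq_inv_iff_mul_eq_one, ← pow_succ, Nat.sub_add_cancel (orderOf_pos σ),
          pow_orderOf_eq_one]
      rwa [h2] at h1
    -- a unit of `V` in `ncl` is invertible in `locV`
    have key : ∀ τ : N ≃ₐ[F] N, (∀ x ∈ locV V (ncl (up N R)), τ x ∈ locV V (ncl (up N R))) →
        ∀ a ∈ ncl (up N R), V.valuation (τ a) < 1 → V.valuation a < 1 := by
      intro τ hτ a ha h1
      by_contra h2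
      have haV : V.valuation a = 1 :=
        le_antisymm ((V.valuation_le_one_iff _).2 (ncl_mem hR a ha)) (not_lt.1 h2)
      have h3 : a⁻¹ ∈ locV V (ncl (up N R)) :=
        ⟨1, Subalgebra.one_mem _, a, ha, haV, by rw [one_div]⟩
      have h4 := hτ _ h3
      have h5 : τ a⁻¹ ∈ V := by
        obtain ⟨c, hc, d, hd, h6, h7⟩ := h4
        rw [h7, div_eq_mul_inv]
        refine V.mul_mem _ _ (ncl_mem hR c hc) ?_
        rw [← V.valuation_le_one_iff, map_inv₀, h6, inv_one]
      rw [map_inv₀] at h5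
      have ha0 : τ a ≠ 0 := (map_ne_zero τ).2 (by rintro rfl; rw [map_zero] at haV;
                                                   exact zero_ne_one haV)
      exact (val_lt_one_iff' V ha0).1 h1 h5
    intro a ha
    refine ⟨key σ h a ha, fun h1 => ?_⟩
    have h2 : σ⁻¹ (σ a) = a := by
      rw [← AlgEquiv.mul_apply, inv_mul_cancel]; rfl
    have h3 := key σ⁻¹ hinv (σ a) (ncl_up_stable σ ha)
    rw [h2] at h3
    exact h3 h1

/-- The stabiliser of the centre of `V` on the normalisation in `N` of the model `P` of `F`. -/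
theorem mem_stab_iff_NV [FiniteDimensional F N] (V : ValuationSubring N) (hV : Ov k V)
    {P : Submodule k F} (hP : IsModel P) {σ : N ≃ₐ[F] N} :
    σ ∈ stab V (RV (V.comap (algebraMap F N)) P) ↔
      ∀ x ∈ NV V (upm N P), σ x ∈ NV V (upm N P) := by
  rw [NV_upm V hV hP]
  refine mem_stab_iff_locV V ?_
  intro a ha
  rw [← RV_upm V hV hP] at ha
  exact RV_le hV hP.upm a ha

end Up

/-! ## Orbits and local degrees -/

section Orbit

theorem relIndex_ne_zero_of_finite {G : Type*} [Group G] [Finite G] (H D : Subgroup G) :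
    H.relIndex D ≠ 0 := by
  haveI : (H.subgroupOf D).FiniteIndex := inferInstance
  exact Subgroup.FiniteIndex.index_ne_zero

/-- The orbit of `x` under a finite subgroup `D` has `[D : D ∩ Stab x]` elements. -/
theorem ncard_orbit {G X : Type*} [Group G] [Finite G] [MulAction G X] (D : Subgroup G) (x : X) :
    (MulAction.orbit D x).ncard = (MulAction.stabilizer G x).relIndex D := by
  rw [← MulAction.index_stabilizer, Subgroup.relIndex]
  congr 1

variable {k F L : Type u} [Field k] [Field F] [Field L] [Algebra k F] [Algebra k L]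
  [Algebra F L] [IsScalarTower k F L]

/-- `d` bounds the local degrees of `M / F` at the centres (of valuation rings extending `v₀`)
on the integral closures of `R ⊆ F`: `[D : D ∩ Gal(N / M)] ≤ d` for all finite Galois `N / F`
containing `M` and all `W` extending `v₀`, `D` the stabiliser of the centre of `W`. -/
def LDeg (M : Type u) [Field M] [Algebra F M] (v₀ : ValuationSubring F) (R : Subalgebra k F)
    (d : ℕ) : Prop :=
  ∀ (N : Type u) [Field N] [Algebra k N] [Algebra F N] [IsScalarTower k F N]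
    [FiniteDimensional F N] [IsGalois F N] (j : M →ₐ[F] N) (W : ValuationSubring N),
    W.comap (algebraMap F N) = v₀ → j.fieldRange.fixingSubgroup.relIndex (stab W R) ≤ d

theorem LDeg.anti {M : Type u} [Field M] [Algebra F M] {v₀ : ValuationSubring F}
    {R R' : Subalgebra k F} {d : ℕ} (h : R ≤ R') (hM : LDeg M v₀ R d) : LDeg M v₀ R' d := by
  intro N _ _ _ _ _ _ j W hW
  refine le_trans ?_ (hM N j W hW)
  have hfin : Finite (N ≃ₐ[F] N) := inferInstance
  exact Subgroup.relIndex_le_of_le_right (stab_anti W h) (relIndex_ne_zero_of_finite _ _)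

variable [FiniteDimensional F L] [IsGalois F L]

/-- The orbits of the stabiliser of the centre of `V` on the roots are bounded by local degrees:
`s ∈ L`, and `M` contains a root of the minimal polynomial of `s`. -/
theorem orbit_le (v₀ : ValuationSubring F) (R : Subalgebra k F) (hR : ∀ a ∈ R, a ∈ v₀)
    {d : ℕ} (M : Type u) [Field M] [Algebra F M] [FiniteDimensional F M]
    [Algebra.IsSeparable F M] (hM : LDeg M v₀ R d) (V : ValuationSubring L)
    (hV : V.comap (algebraMap F L) = v₀) (s : L) (r : M)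
    (hr : Polynomial.aeval r (minpoly F s) = 0) :
    (MulAction.orbit (stab V R) s).ncard ≤ d := by
  classical
  let Ω : Type u := SeparableClosure F
  let i : L →ₐ[F] Ω := IsSepClosed.lift
  have hmin : minpoly F r = minpoly F s :=
    (minpoly.eq_of_irreducible_of_monic (minpoly.irreducible (Algebra.IsIntegral.isIntegral s))
      hr (minpoly.monic (Algebra.IsIntegral.isIntegral s))).symm
  obtain ⟨φ, hφ⟩ : ∃ φ : M →ₐ[F] Ω, φ r = i s := by
    refine IntermediateField.exists_algHom_of_splits_of_aeval (fun m => ⟨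
      Algebra.IsIntegral.isIntegral m, ?_⟩) ?_
    · exact IsSepClosed.splits_codomain _ (Algebra.IsSeparable.isSeparable F m)
    · rw [hmin, Polynomial.aeval_algHom_apply, minpoly.aeval, map_zero]
  let E : IntermediateField F Ω := i.fieldRange ⊔ φ.fieldRange
  haveI : FiniteDimensional F i.fieldRange :=
    (AlgEquiv.ofInjectiveField i).toLinearEquiv.finiteDimensional
  haveI : FiniteDimensional F φ.fieldRange :=
    (AlgEquiv.ofInjectiveField φ).toLinearEquiv.finiteDimensional
  haveI : FiniteDimensional F E := IntermediateField.finiteDimensional_sup _ _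
  let N : IntermediateField F Ω := IntermediateField.normalClosure F E Ω
  haveI : IsGalois F N := IsGalois.normalClosure F E Ω
  haveI : FiniteDimensional F N := normalClosure.is_finiteDimensional F E Ω
  have hEN : E ≤ N := IntermediateField.le_normalClosure E
  let iN : L →ₐ[F] N := i.codRestrict N.toSubalgebra fun x =>
    hEN ((le_sup_left : i.fieldRange ≤ E) ⟨x, rfl⟩)
  let φN : M →ₐ[F] N := φ.codRestrict N.toSubalgebra fun x =>
    hEN ((le_sup_right : φ.fieldRange ≤ E) ⟨x, rfl⟩)
  have hs : φN r = iN s := Subtype.ext hφ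
  letI : Algebra k N := ((algebraMap F N).comp (algebraMap k F)).toAlgebra
  haveI : IsScalarTower k F N := IsScalarTower.of_algebraMap_eq fun _ => rfl
  letI : Algebra L N := iN.toRingHom.toAlgebra
  haveI : IsScalarTower F L N := IsScalarTower.of_algebraMap_eq fun x => (iN.commutes x).symm
  haveI : Normal F L := inferInstance
  obtain ⟨W, hW⟩ := exists_comap_eq (N := N) V
  have hWv : W.comap (algebraMap F N) = v₀ := by
    rw [← hV, ← hW]
    ext x
    change algebraMap F N x ∈ W ↔ algebraMap L N (algebraMap F L x) ∈ W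
    rw [← IsScalarTower.algebraMap_apply]
  have hRW : ∀ a ∈ up (k := k) N R, a ∈ W := by
    rintro _ ⟨a, ha, rfl⟩
    have h1 : a ∈ W.comap (algebraMap F N) := by rw [hWv]; exact hR a ha
    exact h1
  have hmap := map_stab (L := L) W R hRW
  rw [hW] at hmap
  have h1 := hM N φN W hWv
  refine le_trans ?_ h1
  -- orbit of `s` under `stab V R` = orbit of `iN s` under `stab W R`
  have h2 : (MulAction.orbit (stab V R) s).ncard ≤ (MulAction.orbit (stab W R) (iN s)).ncard := by
    have hfin : (MulAction.orbit (stab W R) (iN s)).Finite := Set.finite_range _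
    refine (Set.ncard_image_of_injective _ (algebraMap L N).injective).symm.le.trans ?_
    refine Set.ncard_le_ncard ?_ hfin
    rintro _ ⟨_, ⟨τ, rfl⟩, rfl⟩
    have h3 : (τ : L ≃ₐ[F] L) ∈ (stab W R).map (AlgEquiv.restrictNormalHom L) := by
      rw [hmap]; exact τ.2
    obtain ⟨σ, hσ, hστ⟩ := h3
    refine ⟨⟨σ, hσ⟩, ?_⟩
    change σ (algebraMap L N s) = algebraMap L N ((τ : L ≃ₐ[F] L) s)
    rw [← hστ]
    exact (AlgEquiv.restrictNormal_commutes σ L s).symm
  refine h2.trans ?_
  rw [ncard_orbit]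
  refine Subgroup.relIndex_le_of_le_left ?_ (relIndex_ne_zero_of_finite _ _)
  intro σ hσ
  rw [MulAction.mem_stabilizer_iff]
  change σ (iN s) = iN s
  rw [← hs]
  exact hσ ⟨φN r, r, rfl⟩

end Orbit

end Pool.Agent.TG
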