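import Pool.Agent.Lib.TGT.GPDefs
import Pool.Agent.Lib.LU3.Row2b
import Mathlib.RingTheory.AlgebraicIndependent.TranscendenceBasis
import Mathlib.Combinatorics.Matroid.Rank.ENat

/-!
# TANK G: general position at all places at once, by transcendence degrees

`k ⊆ κ`, `K ⊆ L` fields over `k`, resp. `κ`. A chain of projections from centres of places of
`L / κ` of a space defined over `k` is defined over fields `E j ⊆ κ` of small transcendence degree
over `k`. Hence a tuple of sections with algebraically independent coordinates cannot be constant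
on a long chain.
-/

set_option autoImplicit false

namespace Pool.Agent.TGChain

open Module MvPolynomial
open Pool.Agent.TG (Ov ZDim IsMin IsModel Bir)
open Pool.Agent.TGT (low BadChain BadBase CoreStmt)
open Pool.Agent.ALL68 (mul_lt_one_of_le_of_lt')

universe u

section Res

variable {E κ L : Type u} [Field E] [Field κ] [Field L] [Algebra E κ] [Algebra κ L] [Algebra E L]
  [IsScalarTower E κ L]

theorem val_aeval_sub {ι : Type*} (V : ValuationSubring L) (hV : Ov κ V) (z : ι → L) (c : ι → κ)
    (hz : ∀ i, V.valuation (z i - algebraMap κ L (c i)) < 1) (F : MvPolynomial ι E) :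
    V.valuation (aeval z F - algebraMap κ L (aeval c F)) < 1 := by
  have hκ : ∀ x : κ, V.valuation (algebraMap κ L x) ≤ 1 :=
    fun x => (V.valuation_le_one_iff _).2 (hV x)
  have hzi : ∀ i, V.valuation (z i) ≤ 1 := by
    intro i
    have e : z i = (z i - algebraMap κ L (c i)) + algebraMap κ L (c i) := by ring
    rw [e]
    exact (V.valuation.map_add _ _).trans (max_le (hz i).le (hκ _))
  induction F using MvPolynomial.induction_on with
  | C a =>
    rw [aeval_C, aeval_C, ← IsScalarTower.algebraMap_apply, sub_self, map_zero]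
    exact zero_lt_one
  | add p q hp hq =>
    rw [map_add, map_add, map_add, add_sub_add_comm]
    exact Valuation.map_add_lt _ hp hq
  | mul_X p i hp =>
    rw [map_mul, map_mul, aeval_X, aeval_X, map_mul]
    have e : aeval z p * z i - algebraMap κ L (aeval c p) * algebraMap κ L (c i) =
      (aeval z p - algebraMap κ L (aeval c p)) * z i +
        algebraMap κ L (aeval c p) * (z i - algebraMap κ L (c i)) := by ring
    rw [e]
    refine Valuation.map_add_lt _ ?_ ?_
    · rw [map_mul]; exact mul_lt_one_of_lt_of_le hp (hzi i)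
    · rw [map_mul]; exact mul_lt_one_of_le_of_lt' (hκ _) (hz i)

/-- Nonzero constants have value one. -/
theorem val_const {V : ValuationSubring L} (hV : Ov κ V) {c : κ} (hc : c ≠ 0) :
    V.valuation (algebraMap κ L c) = 1 := by
  refine le_antisymm ((V.valuation_le_one_iff _).2 (hV c)) ?_
  have h1 : V.valuation (algebraMap κ L c⁻¹) ≤ 1 := (V.valuation_le_one_iff _).2 (hV _)
  by_contra h
  rw [not_le] at h
  have h2 := mul_lt_one_of_lt_of_le h h1
  rw [← map_mul, ← map_mul, mul_inv_cancel₀ hc, map_one, map_one] at h2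
  exact lt_irrefl _ h2

theorem val_aeval_eq_one {ι : Type*} (V : ValuationSubring L) (hV : Ov κ V) (z : ι → L)
    (c : ι → κ) (hz : ∀ i, V.valuation (z i - algebraMap κ L (c i)) < 1) (F : MvPolynomial ι E)
    (h : aeval c F ≠ 0) : V.valuation (aeval z F) = 1 := by
  have h1 := val_aeval_sub V hV z c hz F
  have h2 := val_const hV h
  have e : aeval z F = (aeval z F - algebraMap κ L (aeval c F)) + algebraMap κ L (aeval c F) := by
    ring
  rw [e, Valuation.map_add_eq_of_lt_right, h2]
  rw [h2]
  exact h1

theorem indep_of_res {ι : Type*} (V : ValuationSubring L) (hV : Ov κ V) (z : ι → L)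
    (c : ι → κ) (hz : ∀ i, V.valuation (z i - algebraMap κ L (c i)) < 1)
    (hc : AlgebraicIndependent E c) : AlgebraicIndependent E z := by
  rw [algebraicIndependent_iff]
  intro F hF
  by_contra h0
  have h1 : aeval c F ≠ 0 := fun h => h0 ((algebraicIndependent_iff.1 hc) F h)
  have h2 := val_aeval_eq_one V hV z c hz F h1
  rw [hF, map_zero] at h2
  exact zero_ne_one h2

/-- A nonzero element of positive value is independent of lifts of independent residues. -/
theorem indep_option {ι : Type*} (V : ValuationSubring L) (hV : Ov κ V) (z : ι → L)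
    (c : ι → κ) (hz : ∀ i, V.valuation (z i - algebraMap κ L (c i)) < 1)
    (hc : AlgebraicIndependent E c) (π : L) (h0 : π ≠ 0) (h1 : V.valuation π < 1) :
    AlgebraicIndependent E (fun o : Option ι => o.elim π z) := by
  have hi := indep_of_res V hV z c hz hc
  rw [hi.option_iff_transcendental]
  have hval : ∀ a : Algebra.adjoin E (Set.range z), a ≠ 0 → V.valuation (a : L) = 1 := by
    rintro ⟨a, ha⟩ hne
    rw [Algebra.adjoin_range_eq_range_aeval] at ha
    obtain ⟨F, rfl⟩ := ha
    have hF : F ≠ 0 := by
      rintro rfl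
      exact hne (Subtype.ext (map_zero _))
    have h1 : aeval c F ≠ 0 := fun h => hF ((algebraicIndependent_iff.1 hc) F h)
    exact val_aeval_eq_one V hV z c hz F h1
  have hle : ∀ a : Algebra.adjoin E (Set.range z), V.valuation (a : L) ≤ 1 := by
    intro a
    by_cases ha : a = 0
    · rw [ha]
      change V.valuation (0 : L) ≤ 1
      rw [map_zero]
      exact zero_le_one
    · exact (hval a ha).le
  have hmem : ∀ p : Polynomial (Algebra.adjoin E (Set.range z)),
      V.valuation (Polynomial.aeval π p) ≤ 1 := by
    intro p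
    induction p using Polynomial.induction_on' with
    | add p q hp hq =>
      rw [map_add]
      exact (V.valuation.map_add _ _).trans (max_le hp hq)
    | monomial m a =>
      rw [Polynomial.aeval_monomial, map_mul, map_pow]
      exact mul_le_one' (hle a) (pow_le_one₀ zero_le' h1.le)
  have key : ∀ (N : ℕ) (p : Polynomial (Algebra.adjoin E (Set.range z))), p.natDegree ≤ N →
      p ≠ 0 → Polynomial.aeval π p ≠ 0 := by
    intro N
    induction N with
    | zero =>
      intro p hp hne
      rw [Polynomial.eq_C_of_natDegree_le_zero hp, Polynomial.aeval_C]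
      intro h
      have h2 : p.coeff 0 ≠ 0 := by
        intro h3
        exact hne (by rw [Polynomial.eq_C_of_natDegree_le_zero hp, h3, Polynomial.C_0])
      have h3 := hval _ h2
      have h4 : ((p.coeff 0 : Algebra.adjoin E (Set.range z)) : L) = 0 := h
      rw [h4, map_zero] at h3
      exact zero_ne_one h3
    | succ N ih =>
      intro p hp hne
      have e := Polynomial.divX_mul_X_add p
      by_cases h2 : p.coeff 0 = 0
      · rw [h2, Polynomial.C_0, add_zero] at e
        have h3 : p.divX ≠ 0 := by
          intro h3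
          rw [h3, zero_mul] at e
          exact hne e.symm
        have h4 : p.divX.natDegree ≤ N := by
          rw [Polynomial.natDegree_divX_eq_natDegree_tsub_one]
          omega
        rw [← e, map_mul, Polynomial.aeval_X]
        exact mul_ne_zero (ih _ h4 h3) h0
      · intro h
        rw [← e, map_add, map_mul, Polynomial.aeval_X, Polynomial.aeval_C] at h
        have h3 := hval _ h2
        have h4 : ((p.coeff 0 : Algebra.adjoin E (Set.range z)) : L) =
            - (Polynomial.aeval π p.divX * π) := by
          rw [add_comm] at h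
          exact eq_neg_of_add_eq_zero_left h
        rw [h4, Valuation.map_neg, map_mul] at h3
        have h5 := mul_lt_one_of_le_of_lt' (hmem p.divX) h1
        rw [h3] at h5
        exact lt_irrefl _ h5
  rw [transcendental_iff]
  intro p hp
  by_contra hne
  exact key _ p le_rfl hne hp

end Res

section Trd

/-- An algebraically independent family in the field generated by `E` and a field of transcendence
degree `n` has at most `n` members. -/
theorem card_le_of_indep {k K E L : Type u} [Field k] [Field K] [Field E] [Field L] [Algebra k K]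
    [Algebra k E] [Algebra k L] [Algebra E L] [IsScalarTower k E L] (φ : K →ₐ[k] L) {n : ℕ}
    (hn : Algebra.trdeg k K = n) {ι : Type*} [Fintype ι] (z : ι → L)
    (hz : AlgebraicIndependent E z)
    (hmem : ∀ i, z i ∈ IntermediateField.adjoin E (Set.range φ)) : Fintype.card ι ≤ n := by
  classical
  obtain ⟨κ, x, hx⟩ := exists_isTranscendenceBasis' k K
  have hcard : Cardinal.mk κ = (n : Cardinal) := by rw [hx.cardinalMk_eq_trdeg, hn]
  have hfin : Finite κ := by
    rw [← Cardinal.lt_aleph0_iff_finite, hcard]
    exact Cardinal.natCast_lt_aleph0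
  set S : Set L := Set.range (fun i => φ (x i)) with hS
  have hκS : Algebra.adjoin k S ≤ (Algebra.adjoin E S).restrictScalars k :=
    Algebra.adjoin_le Algebra.subset_adjoin
  have halg : ∀ y : K, IsAlgebraic (IntermediateField.adjoin E S) (φ y) := by
    intro y
    have h1 := hx.isAlgebraic.isAlgebraic y
    obtain ⟨P, hP, h0⟩ := h1
    have hψ : ∀ a : Algebra.adjoin k (Set.range x), φ a ∈ IntermediateField.adjoin E S := by
      rintro ⟨a, ha⟩
      have h2 : φ a ∈ Algebra.adjoin k S := by
        have h3 : φ a ∈ (Algebra.adjoin k (Set.range x)).map φ := ⟨a, ha, rfl⟩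
        rw [AlgHom.map_adjoin, ← Set.range_comp] at h3
        exact h3
      exact IntermediateField.algebra_adjoin_le_adjoin E S (hκS h2)
    let ψ : Algebra.adjoin k (Set.range x) →+* IntermediateField.adjoin E S :=
      { toFun := fun a => ⟨φ a, hψ a⟩
        map_one' := Subtype.ext (map_one φ)
        map_mul' := fun a b => Subtype.ext (map_mul φ _ _)
        map_zero' := Subtype.ext (map_zero φ)
        map_add' := fun a b => Subtype.ext (map_add φ _ _) }
    have hψi : Function.Injective ψ := by
      intro a b hab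
      have h2 : φ (a : K) = φ (b : K) := congrArg Subtype.val hab
      exact Subtype.ext (φ.injective h2)
    refine ⟨P.map ψ, ?_, ?_⟩
    · rwa [Ne, Polynomial.map_eq_zero_iff hψi]
    · rw [Polynomial.aeval_def, Polynomial.eval₂_map]
      have h3 : (algebraMap (IntermediateField.adjoin E S) L).comp ψ =
          (φ : K →+* L).comp (algebraMap (Algebra.adjoin k (Set.range x)) K) := rfl
      rw [h3]
      have h4 : Polynomial.eval₂ ((φ : K →+* L).comp (algebraMap (Algebra.adjoin k (Set.range x)) K))
          ((φ : K →+* L) y) P = (φ : K →+* L) (Polynomial.eval₂ (algebraMap _ K) y P) :=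
        (Polynomial.hom_eval₂ P _ (φ : K →+* L) y).symm
      have h5 : Polynomial.eval₂ (algebraMap (Algebra.adjoin k (Set.range x)) K) y P = 0 := h0
      rw [h5, map_zero] at h4
      exact h4
  have hG : ∀ g ∈ IntermediateField.adjoin E (Set.range φ),
      g ∈ (algebraicClosure (IntermediateField.adjoin E S) L).restrictScalars E := by
    intro g hg
    have h2 : IntermediateField.adjoin E (Set.range φ) ≤
        (algebraicClosure (IntermediateField.adjoin E S) L).restrictScalars E := by
      rw [IntermediateField.adjoin_le_iff]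
      rintro _ ⟨y, rfl⟩
      exact (mem_algebraicClosure_iff).2 (halg y)
    exact h2 hg
  have hinj := hz.injective
  have h1 : (AlgebraicIndependent.matroid E L).Indep (Set.range z) := by
    rw [AlgebraicIndependent.matroid_indep_iff]
    exact hz.to_subtype_range
  have h2 : Set.range z ⊆ (AlgebraicIndependent.matroid E L).closure S := by
    rintro _ ⟨i, rfl⟩
    rw [AlgebraicIndependent.matroid_closure_eq]
    have h3 := hG _ (hmem i)
    have h4 : IsAlgebraic (IntermediateField.adjoin E S) (z i) := mem_algebraicClosure_iff.1 h3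
    rw [SetLike.mem_coe, Subalgebra.mem_algebraicClosure]
    rwa [← IntermediateField.isAlgebraic_adjoin_iff]
  have h3 := h1.encard_le_eRk_of_subset h2
  rw [Matroid.eRk_closure_eq] at h3
  have h4 := ((AlgebraicIndependent.matroid E L).eRk_le_encard S)
  have h5 : S.encard ≤ (n : ℕ∞) := by
    rw [hS, ← Set.image_univ]
    refine (Set.encard_image_le _ _).trans ?_
    rw [Set.encard_univ]
    have h7 := Fintype.ofFinite κ
    rw [ENat.card_eq_coe_fintype_card]
    have h8 : Fintype.card κ = n := by
      rw [Cardinal.mk_fintype] at hcard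
      exact_mod_cast hcard
    rw [h8]
  have h6 : (Set.range z).encard = (Fintype.card ι : ℕ∞) := by
    rw [← Set.image_univ, hinj.encard_image, Set.encard_univ, ENat.card_eq_coe_fintype_card]
  rw [h6] at h3
  exact_mod_cast h3.trans (h4.trans h5)

/-- Adjoining a finite family whose independent subfamilies have at most `m` members. -/
theorem trdeg_step {k κ : Type u} [Field k] [Field κ] [Algebra k κ] (E : IntermediateField k κ)
    {ι : Type} (c : ι → κ) (hfin : Finite ι) (t m : ℕ) (ht : Algebra.trdeg k E ≤ t)
    (h : ∀ s : Finset ι, AlgebraicIndependent E (fun i : s => c i) → s.card ≤ m) :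
    Algebra.trdeg k ((IntermediateField.adjoin E (Set.range c)).restrictScalars k) ≤
      ((t + m : ℕ) : Cardinal) := by
  classical
  have := Fintype.ofFinite ι
  set G := IntermediateField.adjoin E (Set.range c) with hG
  let c' : ι → G := fun i => ⟨c i, IntermediateField.subset_adjoin _ _ ⟨i, rfl⟩⟩
  have h1 : Algebra.IsAlgebraic (IntermediateField.adjoin E (Set.range c')) G := by
    refine ⟨fun g => ?_⟩
    refine LU3.R2b.alg_transfer G (Set.range c') (Set.range c) ?_ g ?_
    · rintro y ⟨i, rfl⟩
      exact ⟨c' i, IntermediateField.subset_adjoin _ _ ⟨i, rfl⟩, rfl⟩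
    · exact isAlgebraic_algebraMap (⟨(g : κ), g.2⟩ : IntermediateField.adjoin E (Set.range c))
  have h2 : Algebra.IsAlgebraic (Algebra.adjoin E (Set.range c')) G := by
    constructor
    intro g
    rw [← IntermediateField.isAlgebraic_adjoin_iff]
    exact h1.isAlgebraic g
  obtain ⟨T, hT, hTb⟩ := exists_isTranscendenceBasis_subset (R := E) (Set.range c')
  have hch : ∀ y : T, ∃ i, c' i = (y : G) := fun y => hT y.2
  choose i hi using hch
  have hinj : Function.Injective i := by
    intro y z hyz
    apply Subtype.ext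
    rw [← hi y, ← hi z, hyz]
  have hTfin : Finite T := Finite.of_injective i hinj
  have := Fintype.ofFinite T
  set s : Finset ι := Finset.univ.image i with hs
  have hcard : s.card = Fintype.card T := by
    rw [hs, Finset.card_image_of_injective _ hinj, Finset.card_univ]
  have hind : AlgebraicIndependent E (fun j : s => c j) := by
    have h3 : ∀ j : s, ∃ y : T, i y = j := by
      rintro ⟨j, hj⟩
      rw [hs, Finset.mem_image] at hj
      obtain ⟨y, _, hy⟩ := hj
      exact ⟨y, hy⟩
    choose g hg using h3
    have h4 : (fun j : s => c j) = G.val ∘ (fun y : T => (y : G)) ∘ g := by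
      funext j
      have h5 := hi (g j)
      rw [hg j] at h5
      change c j = ((g j : G) : κ)
      rw [← h5]
    have hgi : Function.Injective g := by
      intro a b hab
      apply Subtype.ext
      rw [← hg a, ← hg b, hab]
    have h5 : AlgebraicIndependent E ((fun y : T => (y : G)) ∘ g) := hTb.1.comp g hgi
    have h6 := h5.map' (f := G.val) G.val.injective
    rw [h4]
    exact h6
  have h3 := h s hind
  have h4 : Algebra.trdeg E G = ((Fintype.card T : ℕ) : Cardinal) := by
    rw [← hTb.cardinalMk_eq_trdeg, Cardinal.mk_fintype]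
  have h5 : Algebra.trdeg k E + Algebra.trdeg E G = Algebra.trdeg k G := trdeg_add_eq k E
  change Algebra.trdeg k G ≤ _
  rw [← h5, h4]
  push_cast
  refine add_le_add ht ?_
  rw [hcard] at h3
  exact_mod_cast h3

end Trd

section Low

variable {κ L : Type u} [Field κ] [Field L] [Algebra κ L]

theorem mem_low_iff {V : ValuationSubring L} (hV : Ov κ V) {Q : Submodule κ L} {f : L}
    (hf : IsMin V Q f) {x : L} : x ∈ low hV Q ↔ x ∈ Q ∧ V.valuation (x / f) < 1 := by
  constructor
  · rintro ⟨h1, h2⟩
    exact ⟨h1, h2 f hf⟩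
  · rintro ⟨h1, h2⟩
    refine ⟨h1, fun g hg => ?_⟩
    have h3 : V.valuation (f / g) ≤ 1 := (V.valuation_le_one_iff _).2 (hg.div f hf.mem)
    have e : x / g = (x / f) * (f / g) := by
      rw [div_mul_div_cancel₀ hf.ne]
    rw [e, map_mul]
    exact mul_lt_one_of_lt_of_le h2 h3

theorem low_le {V : ValuationSubring L} (hV : Ov κ V) (Q : Submodule κ L) : low hV Q ≤ Q :=
  fun _ hx => hx.1

/-- A basis contains an element of minimal value. -/
theorem exists_isMin_basis {V : ValuationSubring L} (hV : Ov κ V) {r : ℕ} (b : Fin (r + 1) → L)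
    (hb : LinearIndependent κ b) :
    ∃ i, IsMin V (Submodule.span κ (Set.range b)) (b i) := by
  obtain ⟨i, _, hi⟩ := Finset.exists_max_image Finset.univ (fun i => V.valuation (b i))
    ⟨0, Finset.mem_univ _⟩
  have h0 : b i ≠ 0 := hb.ne_zero i
  refine ⟨i, Submodule.subset_span ⟨i, rfl⟩, h0, fun g hg => ?_⟩
  induction hg using Submodule.span_induction with
  | mem x hx =>
    obtain ⟨j, rfl⟩ := hx
    rw [← V.valuation_le_one_iff, map_div₀]
    exact div_le_one_of_le₀ (hi j (Finset.mem_univ _)) zero_le'
  | zero => rw [zero_div]; exact V.zero_mem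
  | add x y _ _ hx hy => rw [add_div]; exact V.add_mem _ _ hx hy
  | smul a x _ hx =>
    rw [Algebra.smul_def, mul_div_assoc]
    exact V.mul_mem _ _ (hV a) hx

/-- The basis of the next member of the chain. -/
theorem low_basis {V : ValuationSubring L} (hV : Ov κ V) {r : ℕ} (b : Fin (r + 1) → L)
    (hb : LinearIndependent κ b) (i : Fin (r + 1))
    (hi : IsMin V (Submodule.span κ (Set.range b)) (b i)) (c : Fin (r + 1) → κ)
    (hc : ∀ j, V.valuation (b j / b i - algebraMap κ L (c j)) < 1) :
    LinearIndependent κ (fun t : Fin r => b (i.succAbove t) - c (i.succAbove t) • b i) ∧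
      Submodule.span κ (Set.range fun t : Fin r => b (i.succAbove t) - c (i.succAbove t) • b i) =
        low hV (Submodule.span κ (Set.range b)) := by
  have hmem : ∀ t : Fin r, b (i.succAbove t) - c (i.succAbove t) • b i ∈
      low hV (Submodule.span κ (Set.range b)) := by
    intro t
    rw [mem_low_iff hV hi]
    refine ⟨Submodule.sub_mem _ (Submodule.subset_span ⟨_, rfl⟩)
      (Submodule.smul_mem _ _ (Submodule.subset_span ⟨_, rfl⟩)), ?_⟩
    rw [Algebra.smul_def, sub_div, mul_div_assoc, div_self hi.ne, mul_one]
    exact hc _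
  constructor
  · rw [Fintype.linearIndependent_iff] at hb ⊢
    intro g hg t
    have h1 : ∑ j, (Fin.insertNth i (-∑ t, g t * c (i.succAbove t)) g : Fin (r + 1) → κ) j • b j
        = 0 := by
      rw [Fin.sum_univ_succAbove _ i, Fin.insertNth_apply_same]
      simp only [Fin.insertNth_apply_succAbove]
      rw [← hg]
      simp only [smul_sub, Finset.sum_sub_distrib, neg_smul, Finset.sum_smul, smul_smul]
      ring
    have h2 := hb _ h1 (i.succAbove t)
    rwa [Fin.insertNth_apply_succAbove] at h2
  · apply le_antisymm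
    · rw [Submodule.span_le]
      rintro _ ⟨t, rfl⟩
      exact hmem t
    · intro x hx
      obtain ⟨y, hy⟩ := (Submodule.mem_span_range_iff_exists_fun κ).1 hx.1
      set lam : κ := y i + ∑ t, y (i.succAbove t) * c (i.succAbove t) with hlam
      have e : x = ∑ t : Fin r, y (i.succAbove t) • (b (i.succAbove t) - c (i.succAbove t) • b i)
          + lam • b i := by
        rw [← hy, Fin.sum_univ_succAbove _ i, hlam, add_smul, Finset.sum_smul]
        simp only [smul_sub, Finset.sum_sub_distrib, smul_smul]
        abel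
      have h1 : ∑ t : Fin r, y (i.succAbove t) • (b (i.succAbove t) - c (i.succAbove t) • b i) ∈
          low hV (Submodule.span κ (Set.range b)) :=
        Submodule.sum_mem _ fun t _ => Submodule.smul_mem _ _ (hmem t)
      have h2 : lam • b i ∈ low hV (Submodule.span κ (Set.range b)) := by
        have h3 := Submodule.sub_mem _ hx h1
        rwa [e, add_sub_cancel_left] at h3
      have h3 : lam = 0 := by
        by_contra h0
        have h4 := ((mem_low_iff hV hi).1 h2).2
        rw [Algebra.smul_def, mul_div_assoc, div_self hi.ne, mul_one, val_const hV h0] at h4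
        exact lt_irrefl _ h4
      rw [h3, zero_smul, add_zero] at e
      rw [e]
      exact Submodule.sum_mem _ fun t _ => Submodule.smul_mem _ _ (Submodule.subset_span ⟨t, rfl⟩)

end Low

section Main

variable {k K κ L : Type u} [Field k] [Field K] [Field κ] [Field L] [Algebra k K] [Algebra k κ]
  [Algebra κ L] [Algebra k L] [IsScalarTower k κ L]

/-- `Q` has a basis in the span of `e` over a field of transcendence degree at most `t`. -/
def Stage (k : Type u) {κ L : Type u} [Field k] [Field κ] [Field L] [Algebra k κ] [Algebra κ L]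
    {ι : Type} [Fintype ι] (e : ι → L) (Q : Submodule κ L) (r t : ℕ) : Prop :=
  ∃ (E : IntermediateField k κ) (M : Fin r → ι → κ), (∀ i s, M i s ∈ E) ∧
    Algebra.trdeg k E ≤ (t : Cardinal) ∧ LinearIndependent κ (fun i => ∑ s, M i s • e s) ∧
    Submodule.span κ (Set.range fun i => ∑ s, M i s • e s) = Q

theorem Stage.ne_bot {ι : Type} [Fintype ι] {e : ι → L} {Q : Submodule κ L} {t : ℕ}
    (h : Stage k e Q 0 t) : Q = ⊥ := by
  obtain ⟨E, M, _, _, _, h4⟩ := h
  rw [← h4, Submodule.span_eq_bot]
  rintro _ ⟨i, _⟩
  exact i.elim0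

theorem stage_step (φ : K →ₐ[k] L) {n : ℕ} (hn : Algebra.trdeg k K = n) {ι : Type} [Fintype ι]
    (e : ι → K) {V : ValuationSubring L} (hV : ZDim κ V) {Q : Submodule κ L} {r t m : ℕ}
    (hQ : Stage k (fun s => φ (e s)) Q (r + 1) t)
    (hm : n ≤ m ∨ (n ≤ m + 1 ∧ ∀ x ∈ Q, x ≠ 0 → ∃ s, V.valuation x < V.valuation (φ (e s)))) :
    Stage k (fun s => φ (e s)) (low hV.ov Q) r (t + m) := by
  classical
  obtain ⟨E, M, hM, ht, hlin, hspan⟩ := hQ
  set b : Fin (r + 1) → L := fun i => ∑ s, M i s • φ (e s) with hb
  obtain ⟨i₁, hi⟩ := exists_isMin_basis hV.ov b hlin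
  have hres : ∀ j, ∃ c : κ, V.valuation (b j / b i₁ - algebraMap κ L c) < 1 := fun j =>
    hV.res _ (hi.div _ (Submodule.subset_span ⟨j, rfl⟩))
  choose c hc using hres
  obtain ⟨h1, h2⟩ := low_basis hV.ov b hlin i₁ hi c hc
  have hbmem : ∀ j, b j ∈ IntermediateField.adjoin E (Set.range φ) := by
    intro j
    refine sum_mem fun s _ => ?_
    rw [Algebra.smul_def]
    refine mul_mem ?_ (IntermediateField.subset_adjoin _ _ ⟨e s, rfl⟩)
    exact (IntermediateField.adjoin E (Set.range φ)).algebraMap_mem (⟨M j s, hM j s⟩ : E)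
  have hfam : ∀ S : Finset (Fin (r + 1)), AlgebraicIndependent E (fun j : S => c j) →
      S.card ≤ m := by
    intro S hS
    have hz : ∀ j : S, V.valuation (b j / b i₁ - algebraMap κ L (c j)) < 1 := fun j => hc j
    rcases hm with hm | ⟨hm, hπ⟩
    · have h3 := indep_of_res V hV.ov (fun j : S => b j / b i₁) (fun j : S => c j) hz hS
      have h4 := card_le_of_indep φ hn _ h3 fun j => div_mem (hbmem _) (hbmem _)
      rw [Fintype.card_coe] at h4
      exact h4.trans hm
    · obtain ⟨s, hs⟩ := hπ (b i₁) (by rw [← hspan]; exact hi.mem) hi.ne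
      have hs0 : φ (e s) ≠ 0 := by
        intro h0
        rw [h0, map_zero] at hs
        exact not_lt_zero' hs
      have h3 := indep_option V hV.ov (fun j : S => b j / b i₁) (fun j : S => c j) hz hS
        (b i₁ / φ (e s)) (div_ne_zero hi.ne hs0) (by
          rw [map_div₀]
          exact (div_lt_one₀ (zero_lt_iff.2 ((Valuation.ne_zero_iff _).2 hs0))).2 hs)
      have h4 := card_le_of_indep φ hn _ h3 (by
        rintro (_ | j)
        · exact div_mem (hbmem _) (IntermediateField.subset_adjoin _ _ ⟨e s, rfl⟩)
        · exact div_mem (hbmem _) (hbmem _))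
      rw [Fintype.card_option, Fintype.card_coe] at h4
      omega
  have h3 := trdeg_step E c inferInstance t m ht hfam
  set E' := (IntermediateField.adjoin E (Set.range c)).restrictScalars k with hE'
  have hEE : ∀ x ∈ E, x ∈ E' := fun x hx => by
    rw [hE', IntermediateField.mem_restrictScalars]
    exact (IntermediateField.adjoin E (Set.range c)).algebraMap_mem (⟨x, hx⟩ : E)
  have hcE : ∀ j, c j ∈ E' := fun j => by
    rw [hE', IntermediateField.mem_restrictScalars]
    exact IntermediateField.subset_adjoin _ _ ⟨j, rfl⟩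
  have hfun : (fun i : Fin r => ∑ s, (M (i₁.succAbove i) s - c (i₁.succAbove i) * M i₁ s) •
      φ (e s)) = fun t : Fin r => b (i₁.succAbove t) - c (i₁.succAbove t) • b i₁ := by
    funext i
    simp only [hb, sub_smul, Finset.sum_sub_distrib, Finset.smul_sum, smul_smul]
  refine ⟨E', fun i s => M (i₁.succAbove i) s - c (i₁.succAbove i) * M i₁ s, fun i s =>
    sub_mem (hEE _ (hM _ _)) (mul_mem (hcE _) (hEE _ (hM _ _))), h3, ?_, ?_⟩
  · rw [hfun]
    exact h1
  · rw [hfun, h2, hspan]

/-- The bound for the transcendence degree of the field of definition of the `j`th member. -/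
def bd (n : ℕ) : ℕ → ℕ
  | 0 => 0
  | j + 1 => n + j * (n - 1)

theorem stage_zero {ι : Type} [Fintype ι] (e : ι → L) (hlin : LinearIndependent κ e) :
    Stage k e (Submodule.span κ (Set.range e)) (Fintype.card ι) 0 := by
  classical
  let σ := Fintype.equivFin ι
  have hfun : (fun i : Fin (Fintype.card ι) => ∑ s, (if σ.symm i = s then (1 : κ) else 0) •
      e s) = fun i => e (σ.symm i) := by
    funext i
    simp only [ite_smul, one_smul, zero_smul, Finset.sum_ite_eq, Finset.mem_univ, if_true]
  refine ⟨⊥, fun i s => if σ.symm i = s then 1 else 0, ?_, ?_, ?_, ?_⟩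
  · intro i s
    dsimp only
    split
    · exact one_mem _
    · exact zero_mem _
  · have h1 : Algebra.trdeg k (⊥ : IntermediateField k κ) = 0 := by
      rw [(IntermediateField.botEquiv k κ).trdeg_eq]
      exact trdeg_eq_zero
    rw [h1]
    exact zero_le
  · rw [hfun]
    exact hlin.comp _ σ.symm.injective
  · rw [hfun]
    congr 1
    exact σ.symm.surjective.range_comp e

theorem not_mem_low {V : ValuationSubring L} (hV : Ov κ V) {Q : Submodule κ L} {f : L}
    (hf : IsMin V Q f) : f ∉ low hV Q := by
  intro h
  have h1 := h.2 f hf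
  rw [div_self hf.ne, map_one] at h1
  exact lt_irrefl _ h1

theorem exists_not_mem_low {V : ValuationSubring L} (hV : Ov κ V) {ι : Type} [Fintype ι]
    (e : ι → L) (hlin : LinearIndependent κ e) (hne : Submodule.span κ (Set.range e) ≠ ⊥) :
    ∃ s, e s ∉ low hV (Submodule.span κ (Set.range e)) := by
  classical
  by_contra hcon
  push Not at hcon
  have h2 : Submodule.span κ (Set.range e) ≤ low hV (Submodule.span κ (Set.range e)) := by
    rw [Submodule.span_le]
    rintro _ ⟨s, rfl⟩
    exact hcon s
  let σ := Fintype.equivFin ι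
  have hr : Set.range (e ∘ σ.symm) = Set.range e := σ.symm.surjective.range_comp e
  obtain h0 | h0 := Nat.eq_zero_or_pos (Fintype.card ι)
  · apply hne
    rw [Submodule.span_eq_bot]
    rintro _ ⟨s, _⟩
    exact (Fintype.card_eq_zero_iff.1 h0).elim s
  · obtain ⟨r, hr'⟩ : ∃ r, Fintype.card ι = r + 1 := ⟨_, (Nat.succ_pred_eq_of_pos h0).symm⟩
    have hl : LinearIndependent κ (fun i : Fin (r + 1) => e (σ.symm (Fin.cast hr'.symm i))) :=
      hlin.comp _ (σ.symm.injective.comp (Fin.cast_injective _))
    have hr2 : Set.range (fun i : Fin (r + 1) => e (σ.symm (Fin.cast hr'.symm i))) =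
        Set.range e := by
      ext x
      constructor
      · rintro ⟨i, rfl⟩
        exact ⟨_, rfl⟩
      · rintro ⟨s, rfl⟩
        refine ⟨Fin.cast hr' (σ s), ?_⟩
        dsimp only
        rw [Fin.cast_cast, Fin.cast_refl, id, σ.symm_apply_apply]
    obtain ⟨i, hi⟩ := exists_isMin_basis hV _ hl
    rw [hr2] at hi
    exact not_mem_low hV hi (h2 hi.mem)

theorem chain (φ : K →ₐ[k] L) {n : ℕ} (hn : Algebra.trdeg k K = n)
    {ι : Type} [Fintype ι] (e : ι → K) (hlin : LinearIndependent κ (fun s => φ (e s)))
    (A : ℕ → ValuationSubring L) (hA : ∀ j, ZDim κ (A j)) (Q : ℕ → Submodule κ L)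
    (hQ0 : Q 0 = Submodule.span κ (Set.range fun s => φ (e s)))
    (hQ : ∀ j, Q (j + 1) = low (hA j).ov (Q j)) (q : ℕ) (hne : ∀ j < q, Q j ≠ ⊥)
    (hbig : ∀ j, 1 ≤ j → j < q → ∀ x ∈ Q 1, ∀ y ∈ Q 0, y ∉ Q 1 →
      (A j).valuation x < (A j).valuation y) :
    ∀ j ≤ q, ∃ r, r + j = Fintype.card ι ∧ Stage k (fun s => φ (e s)) (Q j) r (bd n j) := by
  have hanti : ∀ i, Q (i + 1) ≤ Q 1 := by
    intro i
    induction i with
    | zero => exact le_rfl
    | succ i ih => rw [hQ (i + 1)]; exact (low_le _ _).trans ih
  intro j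
  induction j with
  | zero =>
    intro _
    refine ⟨Fintype.card ι, rfl, ?_⟩
    rw [hQ0]
    exact stage_zero _ hlin
  | succ j ih =>
    intro hj
    obtain ⟨r, hr, hst⟩ := ih (by omega)
    obtain _ | r := r
    · exact absurd hst.ne_bot (hne j (by omega))
    · refine ⟨r, by omega, ?_⟩
      rw [hQ j]
      obtain _ | j := j
      · have h1 := stage_step φ hn e (hA 0) hst (m := n) (Or.inl le_rfl)
        have h2 : bd n 0 + n = bd n (0 + 1) := by simp [bd]
        rw [h2] at h1
        exact h1
      · have h1 := stage_step φ hn e (hA (j + 1)) hst (m := n - 1) (Or.inr ⟨by omega, ?_⟩)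
        · have h2 : bd n (j + 1) + (n - 1) = bd n (j + 1 + 1) := by
            simp only [bd]
            ring
          rw [h2] at h1
          exact h1
        · obtain ⟨s, hs⟩ := exists_not_mem_low (hA 0).ov _ hlin (by
            rw [← hQ0]; exact hne 0 (by omega))
          rw [← hQ0, ← hQ 0] at hs
          intro x hx _
          refine ⟨s, hbig (j + 1) (by omega) (by omega) x (hanti j hx) _ ?_ hs⟩
          rw [hQ0]
          exact Submodule.subset_span ⟨s, rfl⟩

/-- Independent elements in a field generated by `E` and a finite family. -/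
theorem indep_card_le (E : IntermediateField k κ) {t : ℕ} (ht : Algebra.trdeg k E ≤ (t : Cardinal))
    {I : Type} [Fintype I] (g : I → κ) {J : Type} [Fintype J] (a : J → κ)
    (ha : AlgebraicIndependent k a) (h : ∀ j, a j ∈ IntermediateField.adjoin E (Set.range g)) :
    Fintype.card J ≤ t + Fintype.card I := by
  have h1 := trdeg_step E g inferInstance t (Fintype.card I) ht fun s _ => Finset.card_le_univ s
  set G := (IntermediateField.adjoin E (Set.range g)).restrictScalars k with hG
  have h2 : ∀ j, a j ∈ G := fun j => by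
    rw [hG, IntermediateField.mem_restrictScalars]
    exact h j
  let a' : J → G := fun j => ⟨a j, h2 j⟩
  have ha' : AlgebraicIndependent k a' := by
    have h3 : AlgebraicIndependent k (G.val ∘ a') := ha
    exact h3.of_comp _
  have h3 := ha'.lift_cardinalMk_le_trdeg
  rw [Cardinal.mk_fintype, Cardinal.lift_natCast] at h3
  have h4 := h3.trans (Cardinal.lift_le.2 h1)
  rw [Cardinal.lift_natCast] at h4
  exact_mod_cast h4

/-- The count: if the differences `f i - lam i • f i₀` lie in `Q`, the coordinates of the `f i` are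
not independent. -/
theorem count {ι : Type} [Fintype ι] {e : ι → L} (hlin : LinearIndependent κ e)
    {Q : Submodule κ L} {r t : ℕ} (hQ : Stage k e Q r t) {n : ℕ} (a : Fin (n + 1) × ι → κ)
    (ha : AlgebraicIndependent k a) (i₀ : Fin (n + 1)) (lam : Fin (n + 1) → κ)
    (h : ∀ i, (∑ s, a (i, s) • e s) - lam i • (∑ s, a (i₀, s) • e s) ∈ Q) :
    (n + 1) * Fintype.card ι ≤ t + (Fintype.card ι + n * (r + 1)) := by
  classical
  obtain ⟨E, M, hM, ht, -, hspan⟩ := hQ
  have hex : ∀ i, ∃ x : Fin r → κ, ∑ j, x j • (∑ s, M j s • e s) =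
      (∑ s, a (i, s) • e s) - lam i • (∑ s, a (i₀, s) • e s) := fun i => by
    have h1 := h i
    rw [← hspan] at h1
    exact (Submodule.mem_span_range_iff_exists_fun κ).1 h1
  choose x hx using hex
  let g : (ι ⊕ ({i : Fin (n + 1) // i ≠ i₀} × Option (Fin r))) → κ := fun o =>
    Sum.elim (fun s => a (i₀, s)) (fun q => q.2.elim (lam q.1) (x q.1)) o
  have hcard : Fintype.card (ι ⊕ ({i : Fin (n + 1) // i ≠ i₀} × Option (Fin r))) =
      Fintype.card ι + n * (r + 1) := by
    rw [Fintype.card_sum, Fintype.card_prod, Fintype.card_option, Fintype.card_fin,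
      Fintype.card_subtype_compl, Fintype.card_fin, Fintype.card_subtype_eq, Nat.add_sub_cancel]
  set G := IntermediateField.adjoin E (Set.range g) with hG
  have hME : ∀ j s, M j s ∈ G := fun j s => G.algebraMap_mem (⟨M j s, hM j s⟩ : E)
  have hg : ∀ o, g o ∈ G := fun o => IntermediateField.subset_adjoin _ _ ⟨o, rfl⟩
  have hmem : ∀ p, a p ∈ G := by
    rintro ⟨i, s⟩
    by_cases hi : i = i₀
    · rw [hi]
      exact hg (Sum.inl s)
    · have h1 : ∑ s, (a (i, s) - lam i * a (i₀, s)) • e s =
          ∑ s, (∑ j, x i j * M j s) • e s := by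
        have h2 := (hx i).symm
        simp only [Finset.smul_sum, smul_smul] at h2
        rw [← Finset.sum_sub_distrib, Finset.sum_comm] at h2
        simp only [sub_smul, Finset.sum_smul]
        exact h2
      have h2 : a (i, s) - lam i * a (i₀, s) = ∑ j, x i j * M j s := by
        have h3 := (Fintype.linearIndependent_iff.1 hlin)
          (fun s => (a (i, s) - lam i * a (i₀, s)) - ∑ j, x i j * M j s) (by
            simp only [sub_smul] at h1 ⊢
            rw [Finset.sum_sub_distrib, h1, sub_self]) s
        exact sub_eq_zero.1 h3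
      have h3 : a (i, s) = ∑ j, x i j * M j s + lam i * a (i₀, s) := by
        rw [← h2]; ring
      rw [h3]
      refine add_mem (sum_mem fun j _ => mul_mem (hg (Sum.inr (⟨i, hi⟩, some j))) (hME _ _))
        (mul_mem (hg (Sum.inr (⟨i, hi⟩, none))) (hg (Sum.inl s)))
  have h1 := indep_card_le E ht g a ha hmem
  rw [hcard, Fintype.card_prod, Fintype.card_fin] at h1
  exact h1

/-- The count without constants. -/
theorem count_zero {ι : Type} [Fintype ι] {e : ι → L} (hlin : LinearIndependent κ e)
    {Q : Submodule κ L} {r t : ℕ} (hQ : Stage k e Q r t) {n : ℕ} (a : Fin (n + 1) × ι → κ)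
    (ha : AlgebraicIndependent k a) (h : ∀ i, (∑ s, a (i, s) • e s) ∈ Q) :
    (n + 1) * Fintype.card ι ≤ t + (n + 1) * r := by
  classical
  obtain ⟨E, M, hM, ht, -, hspan⟩ := hQ
  have hex : ∀ i, ∃ x : Fin r → κ, ∑ j, x j • (∑ s, M j s • e s) =
      (∑ s, a (i, s) • e s) := fun i => by
    have h1 := h i
    rw [← hspan] at h1
    exact (Submodule.mem_span_range_iff_exists_fun κ).1 h1
  choose x hx using hex
  let g : Fin (n + 1) × Fin r → κ := fun q => x q.1 q.2
  set G := IntermediateField.adjoin E (Set.range g) with hG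
  have hME : ∀ j s, M j s ∈ G := fun j s => G.algebraMap_mem (⟨M j s, hM j s⟩ : E)
  have hg : ∀ o, g o ∈ G := fun o => IntermediateField.subset_adjoin _ _ ⟨o, rfl⟩
  have hmem : ∀ p, a p ∈ G := by
    rintro ⟨i, s⟩
    have h1 : ∑ s, (a (i, s)) • e s = ∑ s, (∑ j, x i j * M j s) • e s := by
      have h2 := (hx i).symm
      simp only [Finset.smul_sum, smul_smul] at h2
      rw [Finset.sum_comm] at h2
      simp only [Finset.sum_smul]
      exact h2
    have h2 : a (i, s) = ∑ j, x i j * M j s := by
      have h3 := (Fintype.linearIndependent_iff.1 hlin)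
        (fun s => a (i, s) - ∑ j, x i j * M j s) (by
          simp only [sub_smul]
          rw [Finset.sum_sub_distrib, h1, sub_self]) s
      exact sub_eq_zero.1 h3
    rw [h2]
    exact sum_mem fun j _ => mul_mem (hg (i, j)) (hME _ _)
  have h1 := indep_card_le E ht g a ha hmem
  rw [Fintype.card_prod, Fintype.card_prod, Fintype.card_fin, Fintype.card_fin] at h1
  exact h1

end Main

section Core

variable {k K : Type u} [Field k] [Field K] [Algebra k K]

theorem core (n : ℕ) : CoreStmt k K n := by
  classical
  intro hn hn0 P ι _ e hP κ L _ _ _ _ _ _ φ hlin a ha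
  have hspan : Submodule.span κ (Set.range fun s => φ (e s : K)) ≠ ⊥ := by
    intro h0
    apply hP
    have h1 : IsEmpty ι := by
      constructor
      intro s
      rw [Submodule.span_eq_bot] at h0
      exact hlin.ne_zero s (h0 _ ⟨s, rfl⟩)
    have h2 : (⊤ : Submodule k P) = ⊥ := by
      rw [← e.span_eq, Set.range_eq_empty, Submodule.span_empty]
    rw [Submodule.eq_bot_iff]
    intro x hx
    have h3 : (⟨x, hx⟩ : P) ∈ (⊤ : Submodule k P) := Submodule.mem_top
    rw [h2, Submodule.mem_bot] at h3
    exact congrArg Subtype.val h3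
  constructor
  · rintro i₀ ⟨A, hA, Q, hQ0, hQ, hne, hbig, hf₀, hf⟩
    have hanti : ∀ i j, i ≤ j → Q j ≤ Q i := by
      intro i j hij
      induction hij with
      | refl => exact le_rfl
      | step _ ih => exact (by rw [hQ]; exact (low_le _ _).trans ih)
    have hne' : ∀ j < n + 2, Q j ≠ ⊥ := by
      intro j hj h0
      apply hne
      rw [eq_bot_iff, ← h0]
      exact hanti _ _ (by omega)
    obtain ⟨r, hr, hst⟩ := chain φ hn (fun s => (e s : K)) hlin A hA Q hQ0 hQ (n + 2) hne'
      (fun j h1 _ => hbig j h1) (n + 2) le_rfl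
    choose lam hlam using hf
    have h1 := count hlin hst a ha i₀ lam hlam
    have h2 : bd n (n + 2) = n + (n + 1) * (n - 1) := rfl
    rw [h2, ← hr] at h1
    obtain ⟨m, rfl⟩ : ∃ m, n = m + 1 := ⟨n - 1, by omega⟩
    rw [Nat.add_sub_cancel] at h1
    ring_nf at h1
    omega
  · rintro ⟨A, hA, hf⟩
    have hst0 := stage_zero (k := k) _ hlin
    obtain ⟨r, hr⟩ : ∃ r, Fintype.card ι = r + 1 := by
      obtain h0 | h0 := Nat.eq_zero_or_pos (Fintype.card ι)
      · rw [h0] at hst0
        exact absurd hst0.ne_bot hspan
      · exact ⟨_, (Nat.succ_pred_eq_of_pos h0).symm⟩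
    rw [hr] at hst0
    have hst := stage_step φ hn (fun s => (e s : K)) hA hst0 (m := n) (Or.inl le_rfl)
    have h1 := count_zero hlin hst a ha hf
    rw [hr] at h1
    ring_nf at h1
    omega

end Core

end Pool.Agent.TGChain
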